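import Pool.Agent.Helper50.AY.St

/-!
# Module ND of project AY
-/

set_option autoImplicit false

namespace Pool.Agent.Helper89.AY

open Pool.Agent.Helper50.AY Pool.Agent.Helper43.GD Polynomial

theorem hND : StND := by
  intro p hpF k h5 f hf hd hdvd
  have hp : p.Prime := hpF.out
  haveI : Fact (Irreducible f) := ⟨hf⟩
  let K := AdjoinRoot f
  let β : K := AdjoinRoot.root f
  haveI : CharP K p := charP_of_injective_algebraMap (algebraMap (ZMod p) K).injective p
  haveI : ExpChar K p := ExpChar.prime hp
  have hroot : (2 : K) * β ^ (p ^ (p ^ k)) = 2 * β + 1 := by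
    have h1 : AdjoinRoot.mk f (C 2 * X ^ (p ^ (p ^ k)) - C 2 * X - 1) = 0 :=
      AdjoinRoot.mk_eq_zero.mpr hdvd
    have h2 : (AdjoinRoot.mk f) (C 2) = (2 : K) := by
      have h3 : (C (2 : ZMod p)) = (2 : (ZMod p)[X]) := map_ofNat C 2
      rw [h3, map_ofNat]
    rw [map_sub, map_sub, map_mul, map_mul, map_pow, h2, AdjoinRoot.mk_X, map_one] at h1
    linear_combination h1
  have h2ne : (2 : K) ≠ 0 := by
    intro h
    have h3 : ((2 : ℕ) : K) = 0 := by exact_mod_cast h
    rw [CharP.cast_eq_zero_iff K p] at h3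
    exact absurd (Nat.le_of_dvd (by norm_num) h3) (by omega)
  -- iterates
  have hit : ∀ j : ℕ, (2 : K) * β ^ ((p ^ (p ^ k)) ^ j) = 2 * β + (j : K) := by
    intro j
    induction j with
    | zero => simp
    | succ j ih =>
      have h1 := congrArg (iterateFrobenius K p (p ^ k)) ih
      rw [map_mul, map_add, map_mul, map_natCast, map_ofNat] at h1
      rw [iterateFrobenius_def, iterateFrobenius_def, ← pow_mul, ← pow_succ] at h1
      rw [h1, hroot]
      push_cast
      ring
  have hq : β ^ (p ^ (p ^ (k + 1))) = β := by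
    have h1 := hit p
    rw [CharP.cast_eq_zero K p, add_zero, ← pow_mul] at h1
    have h3 : p ^ k * p = p ^ (k + 1) := (pow_succ p k).symm
    rw [h3] at h1
    exact mul_left_cancel₀ h2ne h1
  have hcard : β ^ (p ^ f.natDegree) = β := by
    let pb := AdjoinRoot.powerBasis hf.ne_zero
    haveI : Module.Finite (ZMod p) K := pb.finite
    haveI : Finite K := Module.finite_of_finite (ZMod p)
    letI : Fintype K := Fintype.ofFinite K
    have h1 : Fintype.card K = p ^ f.natDegree := by
      have h2 : Module.finrank (ZMod p) K = f.natDegree := by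
        rw [pb.finrank]
        exact AdjoinRoot.powerBasis_dim hf.ne_zero
      have h3 := Module.card_eq_pow_finrank (K := ZMod p) (V := K)
      rw [ZMod.card p, h2] at h3
      exact h3
    rw [← h1]
    exact FiniteField.pow_card β
  -- periodic points of the Frobenius map
  let F : K → K := fun y => y ^ p
  have hF : ∀ n : ℕ, ∀ y : K, F^[n] y = y ^ (p ^ n) := by
    intro n y
    exact congrFun (pow_iterate p n) y
  have hP1 : Function.IsPeriodicPt F f.natDegree β := by
    unfold Function.IsPeriodicPt Function.IsFixedPt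
    rw [hF]; exact hcard
  have hP2 : Function.IsPeriodicPt F (p ^ (k + 1)) β := by
    unfold Function.IsPeriodicPt Function.IsFixedPt
    rw [hF]; exact hq
  have hP3 := hP1.gcd hP2
  have hdpos : 0 < f.natDegree := hf.natDegree_pos
  obtain ⟨i, hi1, hi2⟩ := (Nat.dvd_prime_pow hp).mp (Nat.gcd_dvd_right f.natDegree (p ^ (k + 1)))
  have hle : p ^ i ≤ f.natDegree := by
    rw [← hi2]
    exact Nat.gcd_le_left _ hdpos
  have hik : i < k + 1 := (Nat.pow_lt_pow_iff_right hp.one_lt).mp (lt_of_le_of_lt hle hd)
  rw [hi2] at hP3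
  have hP4 : Function.IsPeriodicPt F (p ^ k) β :=
    hP3.trans_dvd (pow_dvd_pow p (by omega))
  have hβ : β ^ (p ^ (p ^ k)) = β := by
    have := hP4
    unfold Function.IsPeriodicPt Function.IsFixedPt at this
    rwa [hF] at this
  rw [hβ] at hroot
  have : (1 : K) = 0 := by linear_combination -hroot
  exact one_ne_zero this

end Pool.Agent.Helper89.AY
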